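import Pool.Agent.Helper33.DZ.Stmts

set_option autoImplicit false

namespace Pool.Agent.Helper33.DZ

open Finset

/-- the homogeneous polynomial -/
def alg1P (w : ℕ) (c : ℕ → ℚ) (x y : ℚ) : ℚ := ∑ n ∈ range (w + 1), c n * (x ^ n * y ^ (w - n))

theorem alg1P_neg (w : ℕ) (c : ℕ → ℚ) (hodd : ∀ n, Odd n → c n = 0) (x y : ℚ) :
    alg1P w c (-x) y = alg1P w c x y := by
  refine Finset.sum_congr rfl fun n _ => ?_
  rcases Nat.even_or_odd n with h | h
  · rw [h.neg_pow]
  · rw [hodd n h, zero_mul, zero_mul]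

theorem alg1P_swap (w : ℕ) (c : ℕ → ℚ) (x y : ℚ) :
    alg1P w c y x = alg1P w (fun a => c (w - a)) x y := by
  unfold alg1P
  rw [← Finset.sum_range_reflect]
  refine Finset.sum_congr rfl fun n hn => ?_
  have hn' : n ≤ w := Nat.lt_succ_iff.1 (Finset.mem_range.1 hn)
  have h1 : w + 1 - 1 - n = w - n := by omega
  have h2 : w - (w - n) = n := by omega
  rw [h1, h2]
  ring

theorem alg1P_shift (w : ℕ) (c : ℕ → ℚ) (x y : ℚ) :
    alg1P w c (x + y) y = alg1P w (hh w c) x y := by
  unfold alg1P hh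
  have h1 : ∀ n ∈ range (w + 1), c n * ((x + y) ^ n * y ^ (w - n)) =
      ∑ a ∈ range (w + 1), ((n.choose a : ℕ) : ℚ) * c n * (x ^ a * y ^ (w - a)) := by
    intro n hn
    have hn' : n ≤ w := Nat.lt_succ_iff.1 (Finset.mem_range.1 hn)
    rw [add_pow, Finset.sum_mul, Finset.mul_sum]
    have h2 : range (n + 1) ⊆ range (w + 1) := Finset.range_subset_range.2 (by omega)
    rw [← Finset.sum_subset h2]
    · refine Finset.sum_congr rfl fun a ha => ?_
      have ha' : a ≤ n := Nat.lt_succ_iff.1 (Finset.mem_range.1 ha)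
      have h3 : y ^ (w - a) = y ^ (n - a) * y ^ (w - n) := by
        rw [← pow_add]
        congr 1
        omega
      rw [h3]
      ring
    · intro a _ ha
      have ha' : n < a := by
        rw [Finset.mem_range] at ha
        omega
      rw [Nat.choose_eq_zero_of_lt ha']
      simp
  rw [Finset.sum_congr rfl h1, Finset.sum_comm]
  refine Finset.sum_congr rfl fun a _ => ?_
  rw [Finset.sum_mul]

theorem st_ALG1 (hANTI : ST_ANTI) : ST_ALG1 := by
  intro w c hw hP a ha
  obtain ⟨hanti, -, -⟩ := hANTI w c hP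
  have swp : ∀ x y : ℚ, alg1P w c y x = -alg1P w c x y := by
    intro x y
    rw [alg1P_swap]
    unfold alg1P
    rw [← Finset.sum_neg_distrib]
    refine Finset.sum_congr rfl fun n hn => ?_
    beta_reduce
    rw [hanti n (Nat.lt_succ_iff.1 (Finset.mem_range.1 hn)), neg_mul]
  have rel : ∀ x y : ℚ, alg1P w c x y = alg1P w (hh w c) x y - alg1P w (hh w c) y x := by
    intro x y
    rw [alg1P_swap w (hh w c) x y]
    unfold alg1P
    rw [← Finset.sum_sub_distrib]
    refine Finset.sum_congr rfl fun n hn => ?_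
    rw [hP.rel n (Nat.lt_succ_iff.1 (Finset.mem_range.1 hn)), sub_mul]
  have key : ∀ x : ℚ, ∑ b ∈ range (w + 1), ((-1) ^ (b + 1) * (hh w c b + hh w c (w - b))) *
      (x ^ b * (x + 1) ^ (w - b)) = 2 * alg1P w (hh w c) x 1 - alg1P w (hh w c) 1 x := by
    intro x
    have h1 : ∑ b ∈ range (w + 1), ((-1) ^ (b + 1) * (hh w c b + hh w c (w - b))) *
        (x ^ b * (x + 1) ^ (w - b)) =
        -(alg1P w (hh w c) (-x) (x + 1) + alg1P w (hh w c) (-(x + 1)) x) := by
      rw [alg1P_swap w (hh w c) x (-(x + 1))]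
      unfold alg1P
      rw [← Finset.sum_add_distrib, ← Finset.sum_neg_distrib]
      refine Finset.sum_congr rfl fun b hb => ?_
      have hb' : b ≤ w := Nat.lt_succ_iff.1 (Finset.mem_range.1 hb)
      have e1 : (-x) ^ b = (-1) ^ b * x ^ b := by rw [← mul_pow]; ring
      have e2 : (-(x + 1)) ^ (w - b) = (-1) ^ b * (x + 1) ^ (w - b) := by
        have e3 : (-(x + 1)) ^ (w - b) = (-1) ^ (w - b) * (x + 1) ^ (w - b) := by
          rw [← mul_pow]; ring
        rw [e3]
        congr 1
        rcases Nat.even_or_odd b with h | h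
        · rw [h.neg_one_pow, Even.neg_one_pow ((Nat.even_sub hb').2 (by tauto))]
        · rw [h.neg_one_pow, Odd.neg_one_pow]
          rw [Nat.odd_sub hb']
          have h5 : ¬ Even b := Nat.not_even_iff_odd.2 h
          have h6 : ¬ Odd w := Nat.not_odd_iff_even.2 hw
          tauto
      rw [e1, e2]
      ring
    rw [h1]
    have h2 : alg1P w (hh w c) (-x) (x + 1) = alg1P w c 1 (x + 1) := by
      rw [← alg1P_shift]
      congr 1
      ring
    have h3 : alg1P w (hh w c) (-(x + 1)) x = alg1P w c 1 x := by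
      rw [← alg1P_shift]
      have : -(x + 1) + x = -1 := by ring
      rw [this, alg1P_neg w c hP.odd]
    rw [h2, h3, swp (x + 1) 1, swp x 1, alg1P_shift w c x 1, rel x 1]
    ring
  have hpoly : ∑ b ∈ range (w + 1), Polynomial.C ((-1) ^ (b + 1) * (hh w c b + hh w c (w - b))) *
      (Polynomial.X ^ b * (Polynomial.X + 1) ^ (w - b)) =
      ∑ b ∈ range (w + 1), Polynomial.C (2 * hh w c b - hh w c (w - b)) *
        Polynomial.X ^ b := by
    apply Polynomial.funext
    intro x
    have h1 := key x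
    rw [alg1P_swap w (hh w c) x 1] at h1
    unfold alg1P at h1
    rw [Finset.mul_sum, ← Finset.sum_sub_distrib] at h1
    rw [Polynomial.eval_finsetSum, Polynomial.eval_finsetSum]
    simp only [Polynomial.eval_mul, Polynomial.eval_C, Polynomial.eval_pow, Polynomial.eval_X,
      Polynomial.eval_add, Polynomial.eval_one]
    rw [h1]
    refine Finset.sum_congr rfl fun b _ => ?_
    rw [one_pow]
    ring
  have h := congrArg (fun p : Polynomial ℚ => p.coeff a) hpoly
  simp only [Polynomial.finsetSum_coeff, Polynomial.coeff_C_mul, Polynomial.coeff_X_pow_mul',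
    Polynomial.coeff_X_add_one_pow, Polynomial.coeff_X_pow] at h
  have hL : ∑ b ∈ range (a + 1), ((w - b).choose (a - b) : ℚ) *
    ((-1) ^ (b + 1) * (hh w c b + hh w c (w - b))) = ∑ b ∈ range (w + 1),
      ((-1) ^ (b + 1) * (hh w c b + hh w c (w - b))) *
        (if b ≤ a then (((w - b).choose (a - b) : ℕ) : ℚ) else 0) := by
    rw [← Finset.sum_subset (Finset.range_subset_range.2 (by omega : a + 1 ≤ w + 1))]
    · refine Finset.sum_congr rfl fun b hb => ?_
      rw [if_pos (Nat.lt_succ_iff.1 (Finset.mem_range.1 hb)), mul_comm]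
    · intro b _ hb
      rw [if_neg (by rw [Finset.mem_range] at hb; omega), mul_zero]
  rw [hL, h, Finset.sum_eq_single a]
  · rw [if_pos rfl, mul_one]
  · intro b _ hb
    rw [if_neg (Ne.symm hb), mul_zero]
  · intro h0
    exact absurd (Finset.mem_range.2 (by omega)) h0

end Pool.Agent.Helper33.DZ
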